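import Mathlib

namespace Pool.Agent.Results.MP_c5ead3_nt.AlmostPerfect

/-- sum of the positive divisors -/
def sg (n : ℕ) : ℕ := ∑ d ∈ n.divisors, d

/-- the admissible multipliers: positive deficient `k` with `k * n` non-deficient -/
def Mult (n : ℕ) : Set ℕ := {k | 1 ≤ k ∧ sg k < 2 * k ∧ 2 * (k * n) ≤ sg (k * n)}

lemma sg_cop {a b : ℕ} (h : Nat.Coprime a b) : sg (a * b) = sg a * sg b := by
  unfold sg
  exact Nat.Coprime.sum_divisors_mul h

lemma sg_two (j : ℕ) : sg (2 ^ j) + 1 = 2 * 2 ^ j := by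
  unfold sg
  rw [Nat.sum_divisors_prime_pow Nat.prime_two]
  induction j with
  | zero => simp
  | succ j ih => rw [Finset.sum_range_succ, pow_succ]; omega

lemma sg_prime {p : ℕ} (hp : p.Prime) : sg p = p + 1 := by
  unfold sg
  rw [hp.sum_divisors]

lemma sg_ge {a b : ℕ} (ha : 0 < a) (hb : 0 < b) : a * sg b ≤ sg (a * b) := by
  unfold sg
  rw [Finset.mul_sum]
  have hi : Set.InjOn (fun d => a * d) (b.divisors : Set ℕ) := fun x _ y _ h =>
    Nat.eq_of_mul_eq_mul_left ha h
  have := Finset.sum_image (f := fun d : ℕ => d) hi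
  rw [← this]
  apply Finset.sum_le_sum_of_subset
  intro x hx
  obtain ⟨d, hd, rfl⟩ := Finset.mem_image.1 hx
  exact Nat.mem_divisors.2 ⟨Nat.mul_dvd_mul_left a (Nat.dvd_of_mem_divisors hd), by positivity⟩

lemma nd_mul {a b : ℕ} (hb : 0 < b) (h : a ∣ b) (ha : 2 * a ≤ sg a) : 2 * b ≤ sg b := by
  obtain ⟨c, rfl⟩ := h
  have h1 : 0 < a := Nat.pos_of_mul_pos_right hb |> fun h => by
    rcases Nat.eq_zero_or_pos a with h0 | h0
    · simp [h0] at hb
    · exact h0
  have h2 : 0 < c := by
    rcases Nat.eq_zero_or_pos c with h0 | h0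
    · simp [h0] at hb
    · exact h0
  have := sg_ge h2 h1
  rw [mul_comm a c]
  nlinarith

lemma three_mem {n : ℕ} (hn : 0 < n) (h : 2 ∣ n) : 3 ∈ Mult n := by
  refine ⟨by norm_num, by decide, nd_mul (a := 6) (by positivity) ?_ (by decide)⟩
  obtain ⟨c, rfl⟩ := h
  exact ⟨c, by ring⟩

lemma sg_le (a b : ℕ) : sg (a * b) ≤ sg a * sg b := by
  unfold sg
  rw [Nat.divisors_mul, Finset.mul_def, Finset.sum_mul_sum, ← Finset.sum_product']
  exact Finset.sum_image_le_of_nonneg (fun _ _ => Nat.zero_le _)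

theorem part1 (n : ℕ) (hn : 2 ≤ n) (k : ℕ) (hk : IsLeast (Mult n) k) :
    k = 3 ∨ sg k + 1 = 2 * k := by
  obtain ⟨⟨h1, h2, h3⟩, hmin⟩ := hk
  by_cases he : 2 ∣ n
  · have h := hmin (three_mem (by omega) he)
    interval_cases k
    · right; decide
    · right; decide
    · left; rfl
  · right
    have hj1 : 2 ^ Nat.log 2 k ≤ k := Nat.pow_log_le_self 2 (by omega)
    have hj2 : k < 2 ^ (Nat.log 2 k + 1) := Nat.lt_pow_succ_log_self (by norm_num) k
    generalize Nat.log 2 k = j at hj1 hj2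
    have hs := sg_two j
    rcases hj1.eq_or_lt with h | h
    · rw [← h]; exact hs
    · have hpos : 0 < 2 ^ j := by positivity
      have hc : Nat.Coprime (2 ^ j) n :=
        Nat.Coprime.pow_left j ((Nat.Prime.coprime_iff_not_dvd Nat.prime_two).2 he)
      have hd : sg (2 ^ j * n) < 2 * (2 ^ j * n) := by
        by_contra hh
        have := hmin (show 2 ^ j ∈ Mult n from ⟨hpos, by omega, not_lt.1 hh⟩)
        omega
      rw [sg_cop hc] at hd
      have h4 := le_trans h3 (sg_le k n)
      rw [pow_succ] at hj2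
      generalize 2 ^ j = t at *
      generalize sg t = u at *
      generalize sg k = v at *
      generalize sg n = s at *
      by_contra hne
      have hv : v + 2 ≤ 2 * k := by omega
      have e1 : (u + 1) * s = 2 * t * s := by rw [hs]
      have e2 : v * s + 2 * s ≤ 2 * k * s := by nlinarith
      -- s * (2t - 1) < 2 t n,  k n ≤ (k - 1) s
      have e3 : 2 * t * s < 2 * (t * n) + s := by nlinarith
      have e4 : k * n + s ≤ k * s := by nlinarith
      have e5 : n ≤ s := by
        by_contra hh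
        have : s < n := not_le.1 hh
        nlinarith
      obtain ⟨w, rfl⟩ := Nat.exists_eq_add_of_le e5
      have e6 : 2 * t * w < n + w := by nlinarith
      have e7 : n + w ≤ k * w := by nlinarith
      have e8 : k * w ≤ 2 * t * w := Nat.mul_le_mul_right w (by omega)
      omega

def pr (N : ℕ) : ℕ → ℕ
  | 0 => 1
  | M + 1 => if M.Prime ∧ N ≤ M then pr N M * M else pr N M

lemma pr_fac (N : ℕ) : ∀ M q, q.Prime → q ∣ pr N M → N ≤ q ∧ q < M
  | 0, q, hq, h => absurd (Nat.dvd_one.1 h) hq.ne_one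
  | M + 1, q, hq, h => by
    unfold pr at h
    split_ifs at h with hc
    · rcases (Nat.Prime.dvd_mul hq).1 h with h | h
      · have := pr_fac N M q hq h
        omega
      · have := (Nat.prime_dvd_prime_iff_eq hq hc.1).1 h
        omega
    · have := pr_fac N M q hq h
      omega

lemma pr_pos (N : ℕ) : ∀ M, 0 < pr N M
  | 0 => Nat.one_pos
  | M + 1 => by
    unfold pr
    split_ifs with hc
    · exact Nat.mul_pos (pr_pos N M) hc.1.pos
    · exact pr_pos N M

lemma pr_step (N M : ℕ) (hM : M.Prime) : sg (pr N M * M) = sg (pr N M) * (M + 1) := by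
  rw [sg_cop, sg_prime hM]
  apply Nat.Coprime.symm
  rw [hM.coprime_iff_not_dvd]
  intro h
  have := pr_fac N M M hM h
  omega

lemma pr_sum (N : ℕ) : ∀ M, (pr N M : ℝ) *
    (1 + ∑ p ∈ Finset.range M, if p.Prime ∧ N ≤ p then (1 / p : ℝ) else 0) ≤ sg (pr N M)
  | 0 => by simp [pr, sg]
  | M + 1 => by
    have ih := pr_sum N M
    have hS : 0 ≤ ∑ p ∈ Finset.range M, if p.Prime ∧ N ≤ p then (1 / p : ℝ) else 0 :=
      Finset.sum_nonneg fun p _ => by split_ifs <;> positivity
    rw [Finset.sum_range_succ]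
    unfold pr
    split_ifs with hc
    · rw [pr_step N M hc.1]
      push_cast
      have hM : (0 : ℝ) < M := by exact_mod_cast hc.1.pos
      have hp : (0 : ℝ) < pr N M := by exact_mod_cast pr_pos N M
      generalize (∑ p ∈ Finset.range M, if p.Prime ∧ N ≤ p then (1 / p : ℝ) else 0) = S at *
      have e : (pr N M : ℝ) * M * (1 + (S + 1 / M)) = pr N M * (1 + S) * M + pr N M := by
        field_simp
        ring
      rw [e]
      have : (pr N M : ℝ) * S ≥ 0 := by positivity
      nlinarith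
    · simpa using ih

lemma pr_big (N : ℕ) : ∃ M, 3 * pr N M ≤ 2 * sg (pr N M) := by
  refine ⟨(4 ^ (N.primesBelow.card + 1)).succ, ?_⟩
  have h1 := one_half_le_sum_primes_ge_one_div N
  have h2 := pr_sum N (4 ^ (N.primesBelow.card + 1)).succ
  generalize (4 ^ (N.primesBelow.card + 1)).succ = M at *
  have h3 : ∑ p ∈ M.primesBelow \ N.primesBelow, (1 / p : ℝ) =
      ∑ p ∈ Finset.range M, if p.Prime ∧ N ≤ p then (1 / p : ℝ) else 0 := by
    rw [← Finset.sum_filter]
    apply Finset.sum_congr _ (fun _ _ => rfl)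
    ext x
    simp only [Finset.mem_sdiff, Nat.mem_primesBelow, Finset.mem_filter, Finset.mem_range]
    constructor
    · rintro ⟨⟨a, b⟩, c⟩
      exact ⟨a, b, not_lt.1 fun h => c ⟨h, b⟩⟩
    · rintro ⟨a, b, c⟩
      exact ⟨⟨a, b⟩, fun h => by omega⟩
  rw [h3] at h1
  have hp : (0 : ℝ) < pr N M := by exact_mod_cast pr_pos N M
  have : (3 : ℝ) * pr N M ≤ 2 * sg (pr N M) := by nlinarith
  exact_mod_cast this

lemma window (A B N : ℕ) (hB : 2 ≤ B) (hAB : A < B) (hN : A * (B + 1) ≤ N) :
    ∃ n, 2 ≤ n ∧ (∀ q, q.Prime → q ∣ n → N ≤ q) ∧ (B + 1) * n ≤ B * sg n ∧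
      A * sg n ≤ (A + 1) * n - 1 ∧ 0 < n := by
  have hex : ∃ M, (B + 1) * pr N M ≤ B * sg (pr N M) := by
    obtain ⟨M, hM⟩ := pr_big N
    exact ⟨M, by nlinarith⟩
  classical
  have h1 := Nat.find_spec hex
  have h2 := fun m => Nat.find_min hex (m := m)
  generalize Nat.find hex = M at *
  cases M with
  | zero => simp [pr, sg] at h1
  | succ M =>
    have h3 := not_le.1 (h2 M (by omega))
    have hfac := fun q hq h => (pr_fac N (M + 1) q hq h).1
    have hp := pr_pos N M
    unfold pr at h1 hfac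
    split_ifs at h1 hfac with hc
    · refine ⟨pr N M * M, ?_, hfac, h1, ?_, Nat.mul_pos hp hc.1.pos⟩
      · have := hc.1.two_le
        nlinarith
      · rw [pr_step N M hc.1]
        have hM := hc.2
        have hM2 := hc.1.two_le
        generalize pr N M = x at *
        generalize sg x = s at *
        have e1 : A * (B + 1) * (M + 1) ≤ (A + 1) * B * M := by nlinarith
        have e2 : B * (A * (s * (M + 1))) < B * ((A + 1) * (x * M)) := by
          rcases Nat.eq_zero_or_pos A with h0 | h0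
          · subst h0
            have : 0 < B * (x * M) := by positivity
            simpa using this
          · calc B * (A * (s * (M + 1))) = (A * (M + 1)) * (B * s) := by ring
              _ < (A * (M + 1)) * ((B + 1) * x) := Nat.mul_lt_mul_of_pos_left h3 (by positivity)
              _ = (A * (B + 1) * (M + 1)) * x := by ring
              _ ≤ ((A + 1) * B * M) * x := Nat.mul_le_mul_right x e1
              _ = B * ((A + 1) * (x * M)) := by ring
        have := Nat.lt_of_mul_lt_mul_left e2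
        omega
    · omega

theorem part2 (H : ∀ n, 2 ≤ n → ∀ k, IsLeast (Mult n) k → k = 1 ∨ k = 3 ∨ ∃ j, k = 2 ^ j)
    (k : ℕ) (hk : sg k + 1 = 2 * k) : ∃ j, k = 2 ^ j := by
  have h1 : 1 ≤ k := by omega
  have hj1 : 2 ^ Nat.log 2 k ≤ k := Nat.pow_log_le_self 2 (by omega)
  have hj2 : k < 2 ^ (Nat.log 2 k + 1) := Nat.lt_pow_succ_log_self (by norm_num) k
  generalize Nat.log 2 k = j at hj1 hj2
  rcases hj1.eq_or_lt with h | h
  · exact ⟨j, h.symm⟩
  exfalso
  have hpos : 0 < 2 ^ j := by positivity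
  have hs := sg_two j
  have hk4 : 4 ≤ k := by
    by_contra hh
    have : k < 4 := not_le.1 hh
    interval_cases k
    · omega
    · have : j = 0 := by
        by_contra h0
        have : 2 ^ 1 ≤ 2 ^ j := Nat.pow_le_pow_right (by norm_num) (by omega)
        omega
      subst this
      omega
    · revert hk
      decide
  have hj4 : 2 ≤ j := by
    by_contra hh
    have : 2 ^ (j + 1) ≤ 2 ^ 2 := Nat.pow_le_pow_right (by norm_num) (by omega)
    omega
  obtain ⟨n, hn, hfac, hlo, hhi, hn0⟩ :=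
    window (sg (2 ^ j)) (sg k) (sg (2 ^ j) * (sg k + 1) + k + 3) (by omega) (by omega) (by omega)
  have hcop : ∀ x, 1 ≤ x → x ≤ k → Nat.Coprime x n := by
    intro x hx1 hx2
    apply Nat.Coprime.symm
    apply Nat.coprime_of_dvd
    intro q hq hqn hqx
    have := hfac q hq hqn
    have := Nat.le_of_dvd hx1 hqx
    omega
  have hmem : k ∈ Mult n := by
    refine ⟨h1, by omega, ?_⟩
    rw [sg_cop (hcop k h1 le_rfl)]
    rw [hk] at hlo
    nlinarith
  obtain ⟨a, ha, hmin⟩ := (wellFounded_lt (α := ℕ)).has_min (Mult n) ⟨k, hmem⟩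
  have hl : IsLeast (Mult n) a := ⟨ha, fun b hb => not_lt.1 (hmin b hb)⟩
  have hak : a ≤ k := hl.2 hmem
  obtain ⟨ha1, -, ha3⟩ := ha
  rw [sg_cop (hcop a ha1 hak)] at ha3
  have hhi' : sg (2 ^ j) * sg n < 2 * 2 ^ j * n := by
    rw [hs] at hhi
    have : 0 < 2 * 2 ^ j * n := by positivity
    omega
  have key : ∀ i, i ≤ j → a ≠ 2 ^ i := by
    intro i hi hai
    have hsi := sg_two i
    have hle : 2 ^ i ≤ 2 ^ j := Nat.pow_le_pow_right (by norm_num) hi
    have hi0 : 0 < 2 ^ i := by positivity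
    rw [hai] at ha3
    generalize 2 ^ i = u at *
    generalize 2 ^ j = t at *
    generalize sg u = su at *
    generalize sg t = st at *
    generalize sg n = s at *
    have e5 : n ≤ s := by
      by_contra hh
      have : s < n := not_le.1 hh
      nlinarith
    obtain ⟨w, rfl⟩ := Nat.exists_eq_add_of_le e5
    have e6 : st * w < n := by nlinarith
    have e7 : n ≤ su * w := by nlinarith
    have e8 : su * w ≤ st * w := Nat.mul_le_mul_right w (by omega)
    omega
  rcases H n hn a hl with h' | h' | ⟨i, h'⟩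
  · exact key 0 (by omega) (by simpa using h')
  · subst h'
    have h3 : sg 3 = 4 := by decide
    rw [h3] at ha3
    have h4 : 2 ^ 2 ≤ 2 ^ j := Nat.pow_le_pow_right (by norm_num) hj4
    generalize 2 ^ j = t at *
    generalize sg t = st at *
    generalize sg n = s at *
    nlinarith
  · refine key i ?_ h'
    have : 2 ^ i < 2 ^ (j + 1) := by omega
    have := (Nat.pow_lt_pow_iff_right (by norm_num : 1 < 2)).1 this
    omega

theorem result :
    (∀ n, 2 ≤ n → ∀ k, IsLeast (Mult n) k → k = 3 ∨ sg k + 1 = 2 * k) ∧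
    ((∀ n, 2 ≤ n → ∀ k, IsLeast (Mult n) k → k = 1 ∨ k = 3 ∨ ∃ j, k = 2 ^ j) ↔
      (∀ k, sg k + 1 = 2 * k → ∃ j, k = 2 ^ j)) := by
  refine ⟨part1, part2, fun H n hn k hk => ?_⟩
  rcases part1 n hn k hk with h | h
  · exact Or.inr (Or.inl h)
  · exact Or.inr (Or.inr (H k h))

end Pool.Agent.Results.MP_c5ead3_nt.AlmostPerfect
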